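import Pool.Agent.N869.GK.L.Stm

/-!
# GK/REF (helper693): a reference variable with the moments and the law `kap`

The variable is the Markov chain of the coranks of the alternating matrices over `𝔽₂`.
-/

set_option autoImplicit false

namespace Pool.Agent.N693.GK

open Finset Filter Topology Pool.Agent.N869.GK

/-- the transition operator -/
noncomputable def TT (f : ℕ → ℝ) (k : ℕ) : ℝ :=
  (1 / 2) ^ k * f (k + 1) + (1 - (1 / 2) ^ k) * f (k - 1)

theorem sum_ite_lt (N a : ℕ) (h : a ≤ N) (u v : ℝ) :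
    ∑ j : Fin N, (if (j : ℕ) < a then u else v) = a * u + (N - a) * v := by
  rw [Fin.sum_univ_eq_sum_range (fun j => if j < a then u else v), Finset.sum_ite]
  have h1 : (range N).filter (fun j => j < a) = range a := by
    ext j
    simp only [mem_filter, mem_range]
    omega
  have h2 : (range N).filter (fun j => ¬ j < a) = Ico a N := by
    ext j
    simp only [mem_filter, mem_range, mem_Ico]
    omega
  rw [h1, h2, sum_const, sum_const, card_range, Nat.card_Ico, nsmul_eq_mul, nsmul_eq_mul,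
    Nat.cast_sub h]

theorem exists_om (n : ℕ) : ∃ (Ω : Type) (_ : Fintype Ω) (_ : Nonempty Ω) (k : Ω → ℕ),
    (∀ ω, k ω ≤ n ∧ k ω % 2 = n % 2) ∧
    ∀ f : ℕ → ℝ, (∑ ω, f (k ω)) / Fintype.card Ω = (TT^[n] f) 0 := by
  induction n with
  | zero =>
      refine ⟨Unit, inferInstance, inferInstance, fun _ => 0, by simp, ?_⟩
      intro f
      simp
  | succ n ih =>
      obtain ⟨Ω, hΩ, hne, k, hk, hf⟩ := ih
      refine ⟨Ω × Fin (2 ^ n), inferInstance, ?_,
        fun w => if (w.2 : ℕ) < 2 ^ (n - k w.1) then k w.1 + 1 else k w.1 - 1, ?_, ?_⟩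
      · have : Nonempty (Fin (2 ^ n)) := ⟨⟨0, by positivity⟩⟩
        infer_instance
      · rintro ⟨ω, j⟩
        obtain ⟨h1, h2⟩ := hk ω
        dsimp only
        split_ifs with hj
        · omega
        · have h3 : k ω ≠ 0 := by
            intro h0
            rw [h0, Nat.sub_zero] at hj
            exact hj j.2
          omega
      · intro f
        rw [Function.iterate_succ_apply, ← hf (TT f), Fintype.sum_prod_type, Fintype.card_prod,
          Fintype.card_fin]
        have h4 : ∀ ω : Ω, ∑ j : Fin (2 ^ n),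
            f (if (j : ℕ) < 2 ^ (n - k ω) then k ω + 1 else k ω - 1) = 2 ^ n * TT f (k ω) := by
          intro ω
          have h5 : ∀ j : Fin (2 ^ n), f (if (j : ℕ) < 2 ^ (n - k ω) then k ω + 1 else k ω - 1) =
              if (j : ℕ) < 2 ^ (n - k ω) then f (k ω + 1) else f (k ω - 1) := by
            intro j
            split_ifs <;> rfl
          rw [Finset.sum_congr rfl fun j _ => h5 j,
            sum_ite_lt _ _ (Nat.pow_le_pow_right (by norm_num) (Nat.sub_le _ _))]
          unfold TT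
          have h6 : ((2 ^ (n - k ω) : ℕ) : ℝ) = 2 ^ n * (1 / 2) ^ (k ω) := by
            push_cast
            rw [one_div, inv_pow, pow_sub₀ _ (by norm_num) (hk ω).1]
          rw [h6]
          push_cast
          ring
        dsimp only
        rw [Finset.sum_congr rfl fun ω _ => h4 ω, ← Finset.mul_sum]
        push_cast
        have h7 : (0 : ℝ) < 2 ^ n := by positivity
        have h8 : (0 : ℝ) < Fintype.card Ω := by exact_mod_cast Fintype.card_pos
        field_simp

theorem iter_lin (n : ℕ) (a b : ℝ) (f g : ℕ → ℝ) :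
    TT^[n] (fun k => a * f k + b * g k) = fun k => a * TT^[n] f k + b * TT^[n] g k := by
  induction n generalizing f g with
  | zero => rfl
  | succ n ih =>
      have h : TT (fun k => a * f k + b * g k) = fun k => a * TT f k + b * TT g k := by
        funext k
        unfold TT
        ring
      rw [Function.iterate_succ_apply, h, ih]
      rfl

/-- the moments -/
noncomputable def MM (n m : ℕ) : ℝ := (TT^[n] (fun k => 2 ^ (m * k))) 0

theorem MM_zero (n : ℕ) : MM n 0 = 1 := by
  unfold MM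
  have h : ∀ n, TT^[n] (fun k => (2 : ℝ) ^ (0 * k)) = fun _ => 1 := by
    intro n
    induction n with
    | zero => funext k; simp
    | succ n ih =>
        rw [Function.iterate_succ_apply', ih]
        funext k
        unfold TT
        ring
  rw [h]

theorem TT_mom (m : ℕ) : TT (fun k => (2 : ℝ) ^ ((m + 1) * k)) =
    fun k => (1 / 2) ^ (m + 1) * 2 ^ ((m + 1) * k) +
      (2 ^ (m + 1) - (1 / 2) ^ (m + 1)) * 2 ^ (m * k) := by
  funext k
  unfold TT
  cases k with
  | zero => simp
  | succ k =>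
      have h1 : (2 : ℝ) ^ ((m + 1) * (k + 1 + 1)) = 2 ^ ((m + 1) * k) * 2 ^ (m + 1) * 2 ^ (m + 1) := by
        rw [← pow_add, ← pow_add]
        congr 1
      have h2 : (2 : ℝ) ^ ((m + 1) * (k + 1)) = 2 ^ ((m + 1) * k) * 2 ^ (m + 1) := by
        rw [← pow_add]
        congr 1
      have h3 : (2 : ℝ) ^ ((m + 1) * k) = 2 ^ (m * k) * 2 ^ k := by
        rw [← pow_add]
        congr 1
        ring
      have h4 : (2 : ℝ) ^ (m * (k + 1)) = 2 ^ (m * k) * 2 ^ m := by
        rw [← pow_add]
        congr 1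
      dsimp only
      rw [Nat.add_sub_cancel, h1, h2, h3, h4, one_div, inv_pow, inv_pow, pow_succ (2 : ℝ) k,
        pow_succ (2 : ℝ) m]
      have h5 : (2 : ℝ) ^ k ≠ 0 := by positivity
      have h6 : (2 : ℝ) ^ m ≠ 0 := by positivity
      field_simp
      ring

theorem MM_succ (n m : ℕ) : MM (n + 1) (m + 1) =
    (1 / 2) ^ (m + 1) * MM n (m + 1) + (2 ^ (m + 1) - (1 / 2) ^ (m + 1)) * MM n m := by
  unfold MM
  rw [Function.iterate_succ_apply, TT_mom, iter_lin]

/-- a linear recursion with contraction -/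
theorem lin_rec {q : ℝ} (hq0 : 0 ≤ q) (hq1 : q < 1) {a b : ℕ → ℝ} (hb : Tendsto b atTop (𝓝 0))
    (h : ∀ n, a (n + 1) = q * a n + b n) : Tendsto a atTop (𝓝 0) := by
  rw [Metric.tendsto_atTop] at hb ⊢
  intro ε hε
  have hq : 0 < 1 - q := by linarith
  obtain ⟨N, hN⟩ := hb (ε * (1 - q) / 2) (by positivity)
  have h1 : ∀ j, |a (N + j)| ≤ q ^ j * |a N| + ε / 2 := by
    intro j
    induction j with
    | zero => simp only [add_zero, pow_zero, one_mul]; linarith
    | succ j ih =>
        have h2 := hN (N + j) (by omega)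
        rw [Real.dist_eq, sub_zero] at h2
        rw [← add_assoc, h (N + j)]
        calc |q * a (N + j) + b (N + j)| ≤ |q * a (N + j)| + |b (N + j)| := abs_add_le _ _
          _ = q * |a (N + j)| + |b (N + j)| := by rw [abs_mul, abs_of_nonneg hq0]
          _ ≤ q * (q ^ j * |a N| + ε / 2) + ε * (1 - q) / 2 := by
              have := mul_le_mul_of_nonneg_left ih hq0
              linarith
          _ = q ^ (j + 1) * |a N| + ε / 2 := by ring
  have h3 : Tendsto (fun j => q ^ j * |a N|) atTop (𝓝 0) := by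
    have := (tendsto_pow_atTop_nhds_zero_of_lt_one hq0 hq1).mul_const |a N|
    simpa using this
  rw [Metric.tendsto_atTop] at h3
  obtain ⟨J, hJ⟩ := h3 (ε / 2) (by positivity)
  refine ⟨N + J, fun n hn => ?_⟩
  obtain ⟨i, rfl⟩ := Nat.exists_eq_add_of_le hn
  have h4 := h1 (J + i)
  have h5 := hJ (J + i) (by omega)
  rw [Real.dist_eq, sub_zero] at h5 ⊢
  rw [← add_assoc] at h4
  have h6 := lt_of_le_of_lt (le_abs_self _) h5
  linarith

theorem MM_tendsto (m : ℕ) : Tendsto (fun n => MM n m) atTop (𝓝 (mom m)) := by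
  induction m with
  | zero =>
      have : (fun n => MM n 0) = fun _ => (1 : ℝ) := funext MM_zero
      rw [this]
      simp [mom]
  | succ m ih =>
      have h0 : Tendsto (fun n => MM n m - mom m) atTop (𝓝 0) := by
        have := ih.sub_const (mom m)
        simpa using this
      have h1 : Tendsto (fun n => (2 ^ (m + 1) - (1 / 2) ^ (m + 1)) * (MM n m - mom m)) atTop
          (𝓝 0) := by
        have := h0.const_mul ((2 : ℝ) ^ (m + 1) - (1 / 2) ^ (m + 1))
        simpa using this
      have h2 : mom (m + 1) = mom m * (1 + 2 ^ (m + 1)) := by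
        unfold mom
        rw [prod_range_succ]
      have h3 : Tendsto (fun n => MM n (m + 1) - mom (m + 1)) atTop (𝓝 0) := by
        refine lin_rec (q := (1 / 2) ^ (m + 1)) (by positivity)
          (pow_lt_one₀ (by norm_num) (by norm_num) (by omega)) h1 ?_
        intro n
        rw [MM_succ, h2, one_div, inv_pow]
        have h5 : (2 : ℝ) ^ (m + 1) ≠ 0 := by positivity
        field_simp
        ring
      have h4 := h3.add_const (mom (m + 1))
      simpa using h4

/-- the law -/
noncomputable def XX (n k : ℕ) : ℝ := (TT^[n] (fun j => if j = k then 1 else 0)) 0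

theorem XX_succ_zero (n : ℕ) : XX (n + 1) 0 = 1 / 2 * XX n 1 := by
  have h : TT (fun j => if j = 0 then 1 else 0) =
      fun j => 0 * (if j = 0 then 1 else 0) + (1 / 2) * (if j = 1 then 1 else 0) := by
    funext j
    unfold TT
    rcases j with _ | _ | j
    · norm_num
    · norm_num
    · simp
  unfold XX
  rw [Function.iterate_succ_apply, h, iter_lin]
  ring

theorem XX_succ_succ (n k : ℕ) : XX (n + 1) (k + 1) =
    (1 / 2) ^ k * XX n k + (1 - (1 / 2) ^ (k + 2)) * XX n (k + 2) := by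
  have h : TT (fun j => if j = k + 1 then 1 else 0) =
      fun j => (1 / 2) ^ k * (if j = k then 1 else 0) +
        (1 - (1 / 2) ^ (k + 2)) * (if j = k + 2 then 1 else 0) := by
    funext j
    unfold TT
    by_cases h1 : j = k
    · subst h1
      dsimp only
      rw [if_pos rfl, if_neg (by omega), if_pos rfl, if_neg (by omega)]
      ring
    · by_cases h2 : j = k + 2
      · subst h2
        dsimp only
        rw [if_neg (by omega), if_pos (by omega), if_neg (by omega), if_pos rfl]
        ring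
      · dsimp only
        by_cases h3 : j = 0
        · subst h3
          rw [if_neg (by omega), if_neg (by omega), if_neg h1, if_neg h2]
          ring
        · rw [if_neg (by omega), if_neg (by omega), if_neg h1, if_neg h2]
          ring
  unfold XX
  rw [Function.iterate_succ_apply, h, iter_lin]

theorem XX_lt (n : ℕ) : ∀ k, n < k → XX n k = 0 := by
  induction n with
  | zero =>
      intro k hk
      unfold XX
      rw [Function.iterate_zero, id, if_neg (by omega)]
  | succ n ih =>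
      intro k hk
      obtain ⟨k, rfl⟩ : ∃ l, k = l + 1 := ⟨k - 1, by omega⟩
      rw [XX_succ_succ, ih k (by omega), ih (k + 2) (by omega)]
      ring

noncomputable def cc (M : ℕ) : ℝ := ∏ i ∈ range M, (1 - (1 / 2) ^ (2 * i + 1))

noncomputable def nn (M k : ℕ) : ℝ := ∏ i ∈ range k, (2 - (1 / 2) ^ (2 * M + i))

noncomputable def dd (k : ℕ) : ℝ := ∏ i ∈ range k, (2 ^ (i + 1) - 1)

noncomputable def yy (M k : ℕ) : ℝ := cc M * nn M k / dd k

theorem two_pow_sub_pos (i : ℕ) : (0 : ℝ) < 2 ^ (i + 1) - 1 := by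
  have : (1 : ℝ) < 2 ^ (i + 1) := one_lt_pow₀ (by norm_num) (by omega)
  linarith

theorem dd_pos (k : ℕ) : 0 < dd k := Finset.prod_pos fun i _ => two_pow_sub_pos i

theorem cc_succ (M : ℕ) : cc (M + 1) = cc M * (1 - (1 / 2) ^ (2 * M + 1)) := by
  unfold cc
  rw [prod_range_succ]

theorem nn_succ (M k : ℕ) : nn M (k + 1) = nn M k * (2 - (1 / 2) ^ (2 * M + k)) := by
  unfold nn
  rw [prod_range_succ]

theorem dd_succ (k : ℕ) : dd (k + 1) = dd k * (2 ^ (k + 1) - 1) := by
  unfold dd
  rw [prod_range_succ]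

theorem nn_shift (M k : ℕ) : nn M (k + 2) =
    nn (M + 1) k * (2 - (1 / 2) ^ (2 * M + 1)) * (2 - (1 / 2) ^ (2 * M)) := by
  unfold nn
  rw [prod_range_succ', prod_range_succ']
  congr 2
  refine Finset.prod_congr rfl fun i _ => ?_
  rw [show 2 * M + (i + 1 + 1) = 2 * (M + 1) + i by ring]

theorem yy_zero_succ (k : ℕ) : yy 0 (k + 1) = (1 / 2) ^ k * yy 0 k := by
  unfold yy
  rw [nn_succ, dd_succ, Nat.mul_zero, Nat.zero_add]
  have h1 := dd_pos k
  have h2 := two_pow_sub_pos k
  have h3 : (2 : ℝ) ^ k ≠ 0 := by positivity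
  have h2' : 2 * (2 : ℝ) ^ k - 1 ≠ 0 := by
    rw [pow_succ] at h2
    intro h
    rw [mul_comm] at h
    exact h2.ne' h
  have e6 : (2 : ℝ) ^ (k + 1) = 2 * 2 ^ k := by ring
  have e3 : (1 / 2 : ℝ) ^ k = 1 / 2 ^ k := by
    rw [one_div, inv_pow, one_div]
  rw [e6, e3]
  set a : ℝ := 2 ^ k
  have e9 : 2 - 1 / a = (2 * a - 1) / a := by field_simp
  rw [e9]
  have h1' : dd k ≠ 0 := h1.ne'
  field_simp

theorem yy_succ_zero (M : ℕ) : yy (M + 1) 0 = 1 / 2 * yy M 1 := by
  unfold yy
  rw [nn_succ, dd_succ, cc_succ]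
  simp only [nn, dd, range_zero, prod_empty]
  rw [pow_succ, add_zero]
  norm_num
  ring

theorem yy_succ_succ (M k : ℕ) : yy (M + 1) (k + 1) =
    (1 / 2) ^ k * yy (M + 1) k + (1 - (1 / 2) ^ (k + 2)) * yy M (k + 2) := by
  unfold yy
  rw [nn_shift, nn_succ, dd_succ (k + 1), dd_succ k, cc_succ]
  have h1 := dd_pos k
  have h2 := two_pow_sub_pos k
  have h4 := two_pow_sub_pos (k + 1)
  have h3 : (2 : ℝ) ^ k ≠ 0 := by positivity
  have h5 : (2 : ℝ) ^ (2 * M) ≠ 0 := by positivity
  have e1 : (1 / 2 : ℝ) ^ (2 * M + 1) = 1 / 2 ^ (2 * M) / 2 := by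
    rw [pow_succ, one_div, inv_pow]
    ring
  have e2 : (1 / 2 : ℝ) ^ (2 * M) = 1 / 2 ^ (2 * M) := by
    rw [one_div, inv_pow, one_div]
  have e3 : (1 / 2 : ℝ) ^ k = 1 / 2 ^ k := by
    rw [one_div, inv_pow, one_div]
  have e4 : (1 / 2 : ℝ) ^ (2 * (M + 1) + k) = 1 / 2 ^ (2 * M) / 2 ^ k / 4 := by
    rw [show 2 * (M + 1) + k = 2 * M + k + 2 by ring, pow_add, pow_add, e2, e3]
    ring
  have e5 : (1 / 2 : ℝ) ^ (k + 2) = 1 / 2 ^ k / 4 := by
    rw [pow_add, e3]
    ring
  have e6 : (2 : ℝ) ^ (k + 1) = 2 * 2 ^ k := by ring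
  have e7 : (2 : ℝ) ^ (k + 1 + 1) = 4 * 2 ^ k := by ring
  rw [e1, e2, e3, e4, e5, e6, e7]
  rw [e6] at h2
  rw [e7] at h4
  set a : ℝ := 2 ^ k
  set b : ℝ := 2 ^ (2 * M)
  have h2' : 2 * a - 1 ≠ 0 := h2.ne'
  have h4' : 4 * a - 1 ≠ 0 := h4.ne'
  have h1' : dd k ≠ 0 := h1.ne'
  have e8 : (1 - 1 / a / 4) = (4 * a - 1) / (4 * a) := by field_simp
  have key : ∀ X : ℝ, (1 - 1 / a / 4) * (X / (dd k * (2 * a - 1) * (4 * a - 1))) =
      X / (4 * a * (dd k * (2 * a - 1))) := by
    intro X
    rw [e8, div_mul_div_comm, show (4 * a) * (dd k * (2 * a - 1) * (4 * a - 1)) =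
      (4 * a - 1) * (4 * a * (dd k * (2 * a - 1))) by ring, mul_div_mul_left _ _ h4']
  rw [key]
  field_simp
  ring

theorem XX_eq (n : ℕ) : ∀ k M, n = k + 2 * M → XX n k = yy M k := by
  induction n with
  | zero =>
      intro k M h
      obtain ⟨rfl, rfl⟩ : k = 0 ∧ M = 0 := by omega
      unfold XX yy cc nn dd
      simp
  | succ n ih =>
      intro k M h
      cases k with
      | zero =>
          obtain ⟨M, rfl⟩ : ∃ l, M = l + 1 := ⟨M - 1, by omega⟩
          rw [XX_succ_zero, yy_succ_zero, ih 1 M (by omega)]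
      | succ k =>
          rw [XX_succ_succ, ih k M (by omega)]
          cases M with
          | zero =>
              rw [XX_lt n (k + 2) (by omega), yy_zero_succ]
              ring
          | succ M =>
              rw [yy_succ_succ, ih (k + 2) M (by omega)]

theorem cc_tendsto : Tendsto cc atTop (𝓝 c4) := by
  have hs : Summable fun i : ℕ => ((1 / 2 : ℝ)) ^ (2 * i + 1) := by
    have h1 : (fun i : ℕ => ((1 / 2 : ℝ)) ^ (2 * i + 1)) = fun i => (1 / 2) * (1 / 4 : ℝ) ^ i := by
      funext i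
      rw [pow_succ, pow_mul]
      norm_num
      ring
    rw [h1]
    exact (summable_geometric_of_lt_one (by norm_num) (by norm_num)).mul_left _
  have hm : Multipliable fun i : ℕ => (1 + (-((1 / 2 : ℝ)) ^ (2 * i + 1))) :=
    Real.multipliable_one_add_of_summable hs.neg
  have h2 := hm.hasProd.tendsto_prod_nat
  have h3 : (fun i : ℕ => (1 + (-((1 / 2 : ℝ)) ^ (2 * i + 1)))) =
      fun i : ℕ => (1 - ((1 / 2 : ℝ)) ^ (2 * i + 1)) := by
    funext i
    ring
  rw [h3] at h2
  exact h2

theorem yy_tendsto (ρ : ℕ) : Tendsto (fun M => yy M ρ) atTop (𝓝 (kap ρ)) := by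
  have h1 : Tendsto (fun M => nn M ρ) atTop (𝓝 (∏ i ∈ range ρ, (2 : ℝ))) := by
    unfold nn
    refine tendsto_finset_prod _ fun i _ => ?_
    have h2 : Tendsto (fun M : ℕ => (1 / 2 : ℝ) ^ (2 * M + i)) atTop (𝓝 0) := by
      refine (tendsto_pow_atTop_nhds_zero_of_lt_one (by norm_num) (by norm_num)).comp ?_
      exact tendsto_atTop_mono (fun M => by simp only [id]; omega) tendsto_id
    have h3 := h2.const_sub 2
    simpa using h3
  have h4 := (cc_tendsto.mul h1).div_const (dd ρ)
  have h5 : c4 * (∏ i ∈ range ρ, (2 : ℝ)) / dd ρ = kap ρ := by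
    unfold kap dd
    rw [Finset.prod_div_distrib, mul_div_assoc]
  rw [h5] at h4
  exact h4

theorem t_REF : S_REF := by
  intro e ρ he m₀ δ hδ
  have h1 : ∀ m, ∀ᶠ M : ℕ in atTop, |MM (ρ + 2 * M) m - mom m| ≤ δ := by
    intro m
    have h2 : Tendsto (fun M : ℕ => ρ + 2 * M) atTop atTop :=
      tendsto_atTop_mono (fun M => by simp only [id]; omega) tendsto_id
    have h3 := (MM_tendsto m).comp h2
    have h4 := h3.eventually (Metric.closedBall_mem_nhds (mom m) hδ)
    filter_upwards [h4] with M hM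
    simpa [Real.dist_eq] using hM
  have h5 : ∀ᶠ M : ℕ in atTop, ∀ m ∈ Finset.range (m₀ + 1), |MM (ρ + 2 * M) m - mom m| ≤ δ :=
    (Finset.eventually_all _).2 fun m _ => h1 m
  have h6 : ∀ᶠ M : ℕ in atTop, |yy M ρ - kap ρ| ≤ δ := by
    have h4 := (yy_tendsto ρ).eventually (Metric.closedBall_mem_nhds (kap ρ) hδ)
    filter_upwards [h4] with M hM
    simpa [Real.dist_eq] using hM
  obtain ⟨M, hM1, hM2⟩ := (h5.and h6).exists
  obtain ⟨Ω, hΩ, hne, k, hk, hf⟩ := exists_om (ρ + 2 * M)
  refine ⟨Ω, hΩ, hne, k, ?_, ?_, ?_⟩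
  · intro ω
    have := (hk ω).2
    omega
  · intro m hm
    have h7 := hf (fun k => 2 ^ (m * k))
    have h8 := hM1 m (Finset.mem_range.2 (by omega))
    unfold MM at h8
    rw [← h7] at h8
    exact h8
  · have h7 := hf (fun j => if j = ρ then 1 else 0)
    have h9 : XX (ρ + 2 * M) ρ = yy M ρ := XX_eq _ _ _ rfl
    unfold XX at h9
    rw [h9] at h7
    rw [← h7] at hM2
    rw [Finset.sum_boole] at hM2
    convert hM2 using 6

end Pool.Agent.N693.GK
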